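import Pool.Agent.Lib.MP_aac8f2_co.PairsProd

/-!
# Cup stacking: products with a factor which is a chain of pairs
-/

namespace Pool.Agent.Results.MP_aac8f2_co.PairedFactor

open SimpleGraph Pool.Agent.Lib.MP_aac8f2_co

/-- Let `G` be any finite connected graph. If `H` is connected and a chain of at least two pairs,
then `H` and `G □ H` are stackable and `G □ H` is again connected and a chain of at least two
pairs. Every bipartite graph with a Hamiltonian path and an even number of vertices, at least
four, is such a chain, so `G □ H` is stackable for every such `H`. -/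
theorem result {V W : Type*} [Fintype V] [Fintype W] (G : SimpleGraph V) (H : SimpleGraph W)
    (hG : G.Connected) :
    (H.Connected → Paired H →
      Stackable H ∧ (G □ H).Connected ∧ Paired (G □ H) ∧ Stackable (G □ H)) ∧
    (H.Colorable 2 → Traceable H → Even (Fintype.card W) → 4 ≤ Fintype.card W →
      H.Connected ∧ Paired H ∧ Stackable (G □ H)) := by
  have main : H.Connected → Paired H →
      Stackable H ∧ (G □ H).Connected ∧ Paired (G □ H) ∧ Stackable (G □ H) := by
    intro hH h
    have h1 := paired_boxProd hG hH h
    exact ⟨h.stackable hH, hG.boxProd hH, h1, h1.stackable (hG.boxProd hH)⟩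
  refine ⟨main, ?_⟩
  intro hc ht he h4
  obtain ⟨hH, p, q, h⟩ := chain_of_traceable hc ht he
  have hp : Paired H := ⟨p, q, _, by omega, h⟩
  exact ⟨hH, hp, (main hH hp).2.2.2⟩

end Pool.Agent.Results.MP_aac8f2_co.PairedFactor
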