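import Pool.Agent.Lib.MP_aac8f2_co.Prisms

/-!
# Cup stacking: products with a prism
-/

namespace Pool.Agent.Results.MP_aac8f2_co.PrismFactor

open SimpleGraph Pool.Agent.Lib.MP_aac8f2_co

/-- For all finite connected graphs `G` and `K` with at least two vertices each, the product of
`G` with the prism `K □ K₂` is stackable. -/
theorem result {V W : Type*} [Fintype V] [Fintype W] [Nontrivial V] [Nontrivial W]
    (G : SimpleGraph V) (K : SimpleGraph W) (hG : G.Connected) (hK : K.Connected) :
    Stackable (G □ (K □ (⊤ : SimpleGraph Bool))) :=
  (paired_prism hG hK).stackable (hG.boxProd (hK.boxProd connected_top))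

end Pool.Agent.Results.MP_aac8f2_co.PrismFactor
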