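import Pool.Agent.Lib.MP_aac8f2_co.SquareStack

/-!
# Cup stacking: prisms over graphs with a stackable square
-/

namespace Pool.Agent.Results.MP_aac8f2_co.PrismSquare

open SimpleGraph Pool.Agent.Lib.MP_aac8f2_co

/-- Let `G` be a finite connected graph. If the square of `G` is stackable, in particular if the
square of `G` has a Hamiltonian path, then `G □ K₂` is stackable. -/
theorem result {V : Type*} [Fintype V] (G : SimpleGraph V) (hG : G.Connected) :
    (Stackable (square G) → Stackable (G □ (⊤ : SimpleGraph Bool))) ∧
    (Traceable (square G) → Stackable (G □ (⊤ : SimpleGraph Bool))) :=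
  ⟨stackable_prism hG, fun h => stackable_prism hG (stackable_of_traceable h)⟩

end Pool.Agent.Results.MP_aac8f2_co.PrismSquare
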