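import Pool.Agent.Lib.MP_aac8f2_co.Basic

/-!
# Cup stacking: products of traceable graphs are stackable
-/

namespace Pool.Agent.Results.MP_aac8f2_co.TraceableProducts

open SimpleGraph Pool.Agent.Lib.MP_aac8f2_co

/-- If `G` and `H` are finite graphs with a Hamiltonian path, then `G`, `H` and `G □ H` are
stackable, and `G □ H` has a Hamiltonian path again. -/
theorem result {V W : Type*} [Fintype V] [Fintype W] (G : SimpleGraph V) (H : SimpleGraph W)
    (hG : Traceable G) (hH : Traceable H) :
    Stackable G ∧ Stackable H ∧ Stackable (G □ H) ∧ Traceable (G □ H) :=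
  ⟨stackable_of_traceable hG, stackable_of_traceable hH,
    stackable_of_traceable (traceable_boxProd hG hH), traceable_boxProd hG hH⟩

end Pool.Agent.Results.MP_aac8f2_co.TraceableProducts
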